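import Pool.Agent.Run7.h286.PL.StmS
import Pool.Agent.Run7.h437.TS.TRS
import Pool.Agent.N134.PX.Norm
import Pool.Agent.Y164.PS.Sym

/-!
# Project PRL (helper286), piece FF: classes over a finite field are values of polynomials `u ∣ v ^ 2 - F` (helper824)
-/

set_option autoImplicit false
set_option linter.all false

namespace Run7.h824.PL

open Polynomial Pool.Agent.H341R2.Sharp
open Pool.Agent.Y164.PS (lam_mem lam_eq_zero_iff lam_mul_left lam_irr)
open scoped Classical

section gen

variable {k : Type} [Field k] [Fintype k]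

/-- the norm is a resultant -/
theorem qc_norm_mk (F h : k[X]) (hF : F.Monic) (hh : h ≠ 0) :
    quadraticChar k (Algebra.norm k (AdjoinRoot.mk F h)) = lam h F := by
  obtain ⟨c, hc⟩ : ∃ c, c = h.leadingCoeff := ⟨_, rfl⟩
  have hc0 : c ≠ 0 := by rw [hc]; exact leadingCoeff_ne_zero.2 hh
  obtain ⟨Q, hQ⟩ : ∃ Q, Q = C c⁻¹ * h := ⟨_, rfl⟩
  have hQm : Q.Monic := by
    rw [Monic, hQ, leadingCoeff_mul, leadingCoeff_C, ← hc, inv_mul_cancel₀ hc0]
  have hcQ : h = C c * Q := by
    rw [hQ, ← mul_assoc, ← C_mul, mul_inv_cancel₀ hc0, C_1, one_mul]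
  have hF0 : F ≠ 0 := hF.ne_zero
  have h1 : Algebra.norm k (AdjoinRoot.mk F Q) = resultant F Q := by
    have h2 := Pool.Agent.N134.PX.norm_pb (AdjoinRoot.powerBasis hF0) Q hQm
    rw [AdjoinRoot.powerBasis_gen, AdjoinRoot.aeval_eq, AdjoinRoot.minpoly_root hF0, hF.leadingCoeff, inv_one, C_1,
      mul_one] at h2
    exact h2
  have h3 : Algebra.norm k (AdjoinRoot.mk F (C c)) = c ^ F.natDegree := by
    have h4 : AdjoinRoot.mk F (C c) = algebraMap k (AdjoinRoot F) c := rfl
    rw [h4, Algebra.norm_algebraMap, (AdjoinRoot.powerBasis hF0).finrank, AdjoinRoot.powerBasis_dim]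
  have h5 : lam (C c) F = quadraticChar k c ^ F.natDegree := by
    unfold lam
    rw [natDegree_C, resultant_zero_right_deg, map_pow]
    simp
  rw [hcQ, map_mul, map_mul, map_mul, h1, h3, map_pow, lam_mul_left (C_ne_zero.2 hc0) hQm.ne_zero, h5]
  rfl

theorem lam_prod (f : k[X]) (A : Finset k[X]) (hA : ∀ p ∈ A, p.Monic) : lam f (∏ p ∈ A, p) = ∏ p ∈ A, lam f p := by
  induction A using Finset.induction_on with
  | empty => simp [lam_one]
  | insert a s ha ih =>
    rw [Finset.prod_insert ha, Finset.prod_insert ha, lam_mul f _ _ (hA a (Finset.mem_insert_self _ _))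
      (monic_prod_of_monic _ _ fun p hp => hA p (Finset.mem_insert_of_mem hp)),
      ih fun p hp => hA p (Finset.mem_insert_of_mem hp)]

theorem lam_comm_even {f g : k[X]} (h : Even f.natDegree) : lam f g = lam g f := by
  unfold lam
  rw [resultant_comm, map_mul, map_pow]
  have h1 : Even (g.natDegree * f.natDegree) := h.mul_left _
  have h2 : quadraticChar k (-1) ^ (g.natDegree * f.natDegree) = 1 := by
    obtain ⟨r, hr⟩ := h1
    rw [hr, ← two_mul, pow_mul]
    have h3 : quadraticChar k (-1) ^ 2 = 1 := by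
      rcases quadraticChar_dichotomy (F := k) (a := -1) (by simp) with h | h <;> rw [h] <;> simp
    rw [h3, one_pow]
  rw [h2, one_mul]

/-- the monic irreducible factors -/
theorem exists_factors (G : k[X]) (hG : G.Monic) (hs : Squarefree G) :
    ∃ A : Finset k[X], (∀ p ∈ A, p.Monic ∧ Irreducible p) ∧ ∏ p ∈ A, p = G := by
  have hG0 : G ≠ 0 := hG.ne_zero
  have hnd := (UniqueFactorizationMonoid.squarefree_iff_nodup_normalizedFactors hG0).1 hs
  refine ⟨(UniqueFactorizationMonoid.normalizedFactors G).toFinset, ?_, ?_⟩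
  · intro p hp
    rw [Multiset.mem_toFinset] at hp
    have h1 := UniqueFactorizationMonoid.irreducible_of_normalized_factor p hp
    refine ⟨?_, h1⟩
    have h2 := UniqueFactorizationMonoid.normalize_normalized_factor p hp
    rw [← h2]
    exact monic_normalize h1.ne_zero
  · have h1 : ∏ p ∈ (UniqueFactorizationMonoid.normalizedFactors G).toFinset, p =
        (UniqueFactorizationMonoid.normalizedFactors G).prod := by
      rw [Finset.prod_eq_multiset_prod, Multiset.toFinset_val, hnd.dedup, Multiset.map_id']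
    rw [h1, UniqueFactorizationMonoid.prod_normalizedFactors_eq hG0, hG.normalize_eq_self]

/-- Chinese remainder theorem for square roots -/
theorem crt_sq (c : k[X]) (A : Finset k[X]) (hA : ∀ p ∈ A, p.Monic ∧ Irreducible p)
    (h : ∀ p ∈ A, ∃ z : k[X], p ∣ z ^ 2 - c) : ∃ s : k[X], ∏ p ∈ A, p ∣ s ^ 2 - c := by
  induction A using Finset.induction_on with
  | empty => exact ⟨0, by simp⟩
  | insert a s ha ih =>
    obtain ⟨x, hx⟩ := ih (fun p hp => hA p (Finset.mem_insert_of_mem hp)) fun p hp => h p (Finset.mem_insert_of_mem hp)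
    obtain ⟨z, hz⟩ := h a (Finset.mem_insert_self _ _)
    obtain ⟨ham, hai⟩ := hA a (Finset.mem_insert_self _ _)
    have hco : IsCoprime a (∏ p ∈ s, p) := by
      refine IsCoprime.prod_right fun p hp => ?_
      obtain ⟨hpm, hpi⟩ := hA p (Finset.mem_insert_of_mem hp)
      rw [hai.coprime_iff_not_dvd]
      intro hd
      have h1 := eq_of_monic_of_associated ham hpm (hai.associated_of_dvd hpi hd)
      rw [h1] at ha
      exact ha hp
    obtain ⟨u, v, huv⟩ := hco
    rw [Finset.prod_insert ha]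
    refine ⟨x * (u * a) + z * (v * ∏ p ∈ s, p), ?_⟩
    refine IsCoprime.mul_dvd ⟨u, v, huv⟩ ?_ ?_
    · have e : (x * (u * a) + z * (v * ∏ p ∈ s, p)) ^ 2 - c =
          (z ^ 2 - c) + a * (u * (x - z) * (2 * z + u * a * (x - z))) := by
        have e1 : v * ∏ p ∈ s, p = 1 - u * a := by rw [← huv]; ring
        rw [e1]
        ring
      rw [e]
      exact dvd_add hz (dvd_mul_right _ _)
    · have e : (x * (u * a) + z * (v * ∏ p ∈ s, p)) ^ 2 - c =
          (x ^ 2 - c) + (∏ p ∈ s, p) * (v * (z - x) * (2 * x + v * (∏ p ∈ s, p) * (z - x))) := by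
        have e1 : u * a = 1 - v * ∏ p ∈ s, p := by rw [← huv]; ring
        rw [e1]
        ring
      rw [e]
      exact dvd_add hx (dvd_mul_right _ _)

/-- the Weil bound for a squarefree polynomial over an extension -/
theorem weil_ext {E : Type} [Field E] [Fintype E] [Algebra k E] (hk : ringChar k ≠ 2) (f : k[X]) (hf : f.Monic)
    (hd : 1 ≤ f.natDegree) (hs : Squarefree f) :
    |∑ t : E, (quadraticChar E (aeval t f) : ℝ)| ≤ f.natDegree * Real.sqrt (Fintype.card E) := by
  have hE : ringChar E ≠ 2 := by rwa [← Algebra.ringChar_eq k E]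
  have h1 := weil_sharp hE (f.map (algebraMap k E)) (by rwa [natDegree_map]) (map_ne_sq hk hf (by
    intro c h e
    have h2 : h * h ∣ f := ⟨C c, by rw [e]; ring⟩
    have h3 := hs h h2
    have h4 := natDegree_eq_zero_of_isUnit h3
    rw [e, natDegree_C_mul_of_mul_ne_zero] at hd
    · rw [natDegree_pow, h4] at hd
      omega
    · intro h0
      have : f = 0 := by
        rw [← leadingCoeff_eq_zero, e, leadingCoeff_mul, leadingCoeff_C]
        exact h0
      exact hf.ne_zero this))
  rw [natDegree_map] at h1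
  simp only [eval_map_algebraMap] at h1
  refine h1.trans ?_
  refine mul_le_mul_of_nonneg_right (by linarith) (Real.sqrt_nonneg _)

/-- prescribed symbols -/
theorem exists_u (hk : ringChar k ≠ 2) (A : Finset k[X]) (hA : ∀ p ∈ A, p.Monic ∧ Irreducible p) (ε : k[X] → ℤ)
    (hε : ∀ p ∈ A, ε p = 1 ∨ ε p = -1) :
    ∃ u : k[X], u.Monic ∧ Irreducible u ∧ Even u.natDegree ∧ (∀ p ∈ A, ¬ u ∣ p) ∧ ∀ p ∈ A, lam p u = ε p := by
  obtain ⟨d, hd⟩ : ∃ d : ℕ, d = ∑ p ∈ A, p.natDegree := ⟨_, rfl⟩
  have hpd : ∀ p ∈ A, p.natDegree ≤ d := fun p hp => by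
    rw [hd]
    exact Finset.single_le_sum (f := fun p : k[X] => p.natDegree) (fun _ _ => Nat.zero_le _) hp
  obtain ⟨M, hM⟩ : ∃ M : ℕ, M = A.card + d + 2 := ⟨_, rfl⟩
  obtain ⟨E, _, _, _, hfr, hcd, -, hfew⟩ := Run7.h437.TS.trs k (2 * M) (by omega)
  have hcdE : Run7.h875.TS.cd E = (Fintype.card E : ℝ) := by
    unfold Run7.h875.TS.cd
    rw [Nat.card_eq_fintype_card]
  obtain ⟨q, hq⟩ : ∃ q : ℝ, q = (Nat.card k : ℝ) := ⟨_, rfl⟩
  have hq2 : 2 ≤ q := by
    rw [hq]
    exact_mod_cast (Finite.one_lt_card : 1 < Nat.card k)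
  have hsq : Real.sqrt (Fintype.card E) = q ^ M := by
    rw [← hcdE, hcd, ← hq, mul_comm, pow_mul]
    exact Real.sqrt_sq (by positivity)
  have hcE : (Fintype.card E : ℝ) = q ^ M * q ^ M := by
    rw [← hcdE, hcd, ← hq, two_mul, pow_add]
  rw [hcdE, hsq] at hfew
  -- the sum
  obtain ⟨P, hP⟩ : ∃ P : E → ℝ, P = fun t => ∏ p ∈ A, (1 + (ε p : ℝ) * (quadraticChar E (aeval t p) : ℝ)) := ⟨_, rfl⟩
  have hPe : ∀ t, P t = ∑ B ∈ A.powerset, (∏ p ∈ B, (ε p : ℝ)) * (quadraticChar E (aeval t (∏ p ∈ B, p)) : ℝ) := by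
    intro t
    rw [hP]
    simp only
    rw [Finset.prod_one_add]
    refine Finset.sum_congr rfl fun B _ => ?_
    rw [Finset.prod_mul_distrib, map_prod, map_prod]
    push_cast
    rfl
  have hsumlow : (Fintype.card E : ℝ) - 2 ^ A.card * (d * q ^ M) ≤ ∑ t, P t := by
    simp only [hPe]
    rw [Finset.sum_comm]
    simp only [← Finset.mul_sum]
    have h1 : ∀ B ∈ A.powerset, (if B = ∅ then (Fintype.card E : ℝ) else 0) - d * q ^ M ≤
        (∏ p ∈ B, (ε p : ℝ)) * ∑ t : E, (quadraticChar E (aeval t (∏ p ∈ B, p)) : ℝ) := by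
      intro B hB
      rw [Finset.mem_powerset] at hB
      split_ifs with hB0
      · subst hB0
        simp only [Finset.prod_empty, map_one, one_mul, Int.cast_one, Finset.sum_const, Finset.card_univ, nsmul_eq_mul,
          mul_one]
        have : 0 ≤ (d : ℝ) * q ^ M := by positivity
        linarith
      · have hBm : (∏ p ∈ B, p).Monic := monic_prod_of_monic _ _ fun p hp => (hA p (hB hp)).1
        have hBd : (∏ p ∈ B, p).natDegree = ∑ p ∈ B, p.natDegree :=
          natDegree_prod_of_monic _ _ fun p hp => (hA p (hB hp)).1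
        have hBd1 : 1 ≤ (∏ p ∈ B, p).natDegree := by
          rw [hBd]
          obtain ⟨p, hp⟩ := Finset.nonempty_iff_ne_empty.2 hB0
          exact (hA p (hB hp)).2.natDegree_pos.trans_le
            (Finset.single_le_sum (f := fun p : k[X] => p.natDegree) (fun _ _ => Nat.zero_le _) hp)
        have hBd2 : (∏ p ∈ B, p).natDegree ≤ d := by
          rw [hBd, hd]
          exact Finset.sum_le_sum_of_subset hB
        have hBs : Squarefree (∏ p ∈ B, p) := by
          refine (Finset.squarefree_prod_of_pairwise_isCoprime ?_ fun p hp => (hA p (hB hp)).2.squarefree)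
          intro p hp r hr hne
          have hp' := hA p (hB hp)
          have hr' := hA r (hB hr)
          show IsRelPrime p r
          refine (IsCoprime.isRelPrime ?_)
          rw [hp'.2.coprime_iff_not_dvd]
          intro hdv
          exact hne (eq_of_monic_of_associated hp'.1 hr'.1 (hp'.2.associated_of_dvd hr'.2 hdv))
        have h2 := weil_ext (E := E) hk (∏ p ∈ B, p) hBm hBd1 hBs
        rw [hsq] at h2
        have h3 : |∏ p ∈ B, (ε p : ℝ)| = 1 := by
          rw [Finset.abs_prod]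
          refine Finset.prod_eq_one fun p hp => ?_
          rcases hε p (hB hp) with h | h <;> rw [h] <;> simp
        have h4 : |(∏ p ∈ B, (ε p : ℝ)) * ∑ t : E, (quadraticChar E (aeval t (∏ p ∈ B, p)) : ℝ)| ≤ d * q ^ M := by
          rw [abs_mul, h3, one_mul]
          refine h2.trans ?_
          gcongr
        have := (abs_le.1 h4).1
        linarith
    have h2 := Finset.sum_le_sum h1
    refine le_trans ?_ h2
    rw [Finset.sum_sub_distrib, Finset.sum_ite_eq', if_pos (Finset.empty_mem_powerset A), Finset.sum_const,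
      Finset.card_powerset, nsmul_eq_mul]
    push_cast
    exact le_rfl
  have hPabs : ∀ t, P t ≤ 2 ^ A.card := by
    intro t
    rw [hP]
    simp only
    rw [← Finset.prod_const]
    refine Finset.prod_le_prod (fun p hp => ?_) fun p hp => ?_
    · rcases hε p hp with h | h <;> rcases quadraticChar_isQuadratic E (aeval t p) with h' | h' | h' <;> rw [h, h'] <;>
        norm_num
    · rcases hε p hp with h | h <;> rcases quadraticChar_isQuadratic E (aeval t p) with h' | h' | h' <;> rw [h, h'] <;>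
        norm_num
  by_contra hcon
  -- the points of full degree do not contribute
  have hzero : ∀ t : E, (minpoly k t).natDegree = 2 * M → P t = 0 := by
    intro t ht
    have hint : IsIntegral k t := Algebra.IsIntegral.isIntegral t
    have hnz : ∀ p ∈ A, aeval t p ≠ 0 := by
      intro p hp h0
      have h1 := minpoly.dvd k t h0
      have h2 := natDegree_le_of_dvd h1 (hA p hp).1.ne_zero
      have h3 := hpd p hp
      omega
    by_contra hPt
    apply hcon
    have hall : ∀ p ∈ A, quadraticChar E (aeval t p) = ε p := by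
      intro p hp
      have h1 : (1 + (ε p : ℝ) * (quadraticChar E (aeval t p) : ℝ)) ≠ 0 := by
        intro h0
        apply hPt
        rw [hP]
        exact Finset.prod_eq_zero hp h0
      rcases hε p hp with h | h <;> rcases quadraticChar_dichotomy (hnz p hp) with h' | h' <;> rw [h, h'] at h1 <;>
        first
        | (rw [h, h']; done)
        | (exfalso; apply h1; norm_num)
    refine ⟨minpoly k t, minpoly.monic hint, minpoly.irreducible hint, by rw [ht]; exact even_two_mul M, ?_, ?_⟩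
    · intro p hp hdv
      apply hnz p hp
      obtain ⟨r, hr⟩ := hdv
      rw [hr, map_mul, minpoly.aeval, zero_mul]
    · intro p hp
      have h1 := qc_aeval (F := k) (E := E) hk p t
      rw [ht, hfr, Nat.div_self (by omega), pow_one] at h1
      rw [← h1]
      exact hall p hp
  have hup : ∑ t, P t ≤ 2 ^ A.card * (2 * q ^ M) := by
    calc ∑ t, P t = ∑ t ∈ Finset.univ.filter fun t : E => (minpoly k t).natDegree ≠ 2 * M, P t := by
          symm
          refine Finset.sum_filter_of_ne fun t _ h0 => ?_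
          intro h
          exact h0 (hzero t h)
      _ ≤ ∑ t ∈ Finset.univ.filter fun t : E => (minpoly k t).natDegree ≠ 2 * M, (2 : ℝ) ^ A.card :=
          Finset.sum_le_sum fun t _ => hPabs t
      _ = ((Finset.univ.filter fun t : E => (minpoly k t).natDegree ≠ 2 * M).card : ℝ) * 2 ^ A.card := by
          rw [Finset.sum_const, nsmul_eq_mul]
      _ ≤ (2 * q ^ M) * 2 ^ A.card := by gcongr
      _ = _ := by ring
  have hfin : q ^ M * q ^ M ≤ (2 ^ A.card * (d + 2)) * q ^ M := by
    rw [hcE] at hsumlow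
    have := hsumlow.trans hup
    linarith
  have hqM : 0 < q ^ M := by positivity
  have h1 := le_of_mul_le_mul_right hfin hqM
  have h2 : (2 : ℝ) ^ M ≤ q ^ M := pow_le_pow_left₀ (by norm_num) hq2 M
  have h3 : (2 : ℝ) ^ M = 2 ^ A.card * 2 ^ (d + 2) := by
    rw [hM, add_assoc, pow_add]
  have h4 : (d : ℝ) + 2 < 2 ^ (d + 2) := by
    have := Nat.lt_two_pow_self (n := d + 2)
    exact_mod_cast this
  have h5 : (0 : ℝ) < 2 ^ A.card := by positivity
  have h6 := mul_lt_mul_of_pos_left h4 h5
  linarith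

end gen

/-- **FF.** -/
theorem T_FF : Run7.h286.PL.P_FF := by
  intro κ _ _ h2 F₁ F₂ h hF₁ hF₂ hd hs hco hnorm
  haveI := Fintype.ofFinite κ
  have hk : ringChar κ ≠ 2 := by
    intro h0
    apply h2
    have : ((2 : ℕ) : κ) = 0 := by rw [ringChar.spec, h0]
    exact_mod_cast this
  have hs1 : Squarefree F₁ := hs.squarefree_of_dvd (dvd_mul_right _ _)
  have hs2 : Squarefree F₂ := hs.squarefree_of_dvd (dvd_mul_left _ _)
  obtain ⟨A₁, hA₁, hP₁⟩ := exists_factors F₁ hF₁ hs1
  obtain ⟨A₂, hA₂, hP₂⟩ := exists_factors F₂ hF₂ hs2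
  have hdisj : Disjoint A₁ A₂ := by
    rw [Finset.disjoint_left]
    intro p h1 h2
    have h3 : p ∣ F₁ := by rw [← hP₁]; exact Finset.dvd_prod_of_mem _ h1
    have h4 : p ∣ F₂ := by rw [← hP₂]; exact Finset.dvd_prod_of_mem _ h2
    exact (hA₁ p h1).2.not_isUnit (hs p (mul_dvd_mul h3 h4))
  obtain ⟨A, hA⟩ : ∃ A, A = A₁ ∪ A₂ := ⟨_, rfl⟩
  have hAm : ∀ p ∈ A, p.Monic ∧ Irreducible p := by
    intro p hp
    rw [hA, Finset.mem_union] at hp
    rcases hp with h | h
    · exact hA₁ p h
    · exact hA₂ p h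
  have hAP : ∏ p ∈ A, p = F₁ * F₂ := by
    rw [hA, Finset.prod_union hdisj, hP₁, hP₂]
  have hcop : ∀ p ∈ A, IsCoprime h p := by
    intro p hp
    refine hco.of_isCoprime_of_dvd_right ?_
    rw [← hAP]
    exact Finset.dvd_prod_of_mem _ hp
  have hh0 : h ≠ 0 := by
    rintro rfl
    rw [isCoprime_zero_left] at hco
    have h3 : IsUnit F₁ := isUnit_of_dvd_unit (dvd_mul_right _ _) hco
    rw [natDegree_eq_zero_of_isUnit h3] at hd
    exact lt_irrefl _ hd
  obtain ⟨u, hum, hui, hue, hup, huε⟩ := exists_u hk A hAm (fun p => lam h p) (by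
    intro p hp
    have h0 : lam h p ≠ 0 := fun h0 => (lam_eq_zero_iff (hAm p hp).2.ne_zero).1 h0 (hcop p hp)
    rcases lam_mem h p with e | e | e
    · exact absurd e h0
    · exact Or.inl e
    · exact Or.inr e)
  have hup' : ∀ p ∈ A, lam u p = lam h p := by
    intro p hp
    rw [lam_comm_even hue, huε p hp]
  have huF : ¬ u ∣ F₁ * F₂ := by
    intro hdv
    rw [← hAP] at hdv
    obtain ⟨p, hp, h3⟩ := (hui.prime.dvd_finsetProd_iff _).1 hdv
    exact hup p hp h3
  have huco : IsCoprime u (F₁ * F₂) := by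
    rw [hui.coprime_iff_not_dvd]
    exact huF
  -- `v`
  have hv : lam F₁ u = 1 := by
    rw [← lam_comm_even hue, ← hP₁, lam_prod _ _ fun p hp => (hA₁ p hp).1]
    have e1 : ∏ p ∈ A₁, lam u p = ∏ p ∈ A₁, lam h p :=
      Finset.prod_congr rfl fun p hp => hup' p (by rw [hA]; exact Finset.mem_union_left _ hp)
    rw [e1, ← lam_prod _ _ fun p hp => (hA₁ p hp).1, hP₁, ← qc_norm_mk F₁ h hF₁ hh0]
    obtain ⟨y, hy⟩ := hnorm
    have h4 : lam h F₁ ≠ 0 := fun h0 => (lam_eq_zero_iff hF₁.ne_zero).1 h0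
      (hco.of_isCoprime_of_dvd_right (dvd_mul_right _ _))
    rw [← qc_norm_mk F₁ h hF₁ hh0, hy] at h4
    have hy0 : y ≠ 0 := by
      rintro rfl
      apply h4
      simp
    rw [hy, ← pow_two]
    exact quadraticChar_sq_one' hy0
  obtain ⟨v, hv⟩ := (lam_irr hk hum hui (fun h3 => huF (h3.mul_right _))).1 hv
  -- `s`
  obtain ⟨s, hs⟩ := crt_sq (h * u) A hAm (by
    intro p hp
    refine (lam_irr hk (hAm p hp).1 (hAm p hp).2 ?_).1 ?_
    · intro h3
      rcases (hAm p hp).2.prime.dvd_or_dvd h3 with h4 | h4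
      · have h5 := (hcop p hp).symm
        rw [(hAm p hp).2.coprime_iff_not_dvd] at h5
        exact h5 h4
      · exact hup p hp (((hAm p hp).2.associated_of_dvd hui h4).symm.dvd)
    · rw [lam_mul_left hh0 hui.ne_zero, hup' p hp]
      have h0 : lam h p ≠ 0 := fun h0 => (lam_eq_zero_iff (hAm p hp).2.ne_zero).1 h0 (hcop p hp)
      rcases lam_mem h p with e | e | e
      · exact absurd e h0
      · rw [e]; norm_num
      · rw [e]; norm_num)
  rw [hAP] at hs
  exact ⟨u, v, s, hum, hui, hue, huco, hv, (dvd_sub_comm).1 hs⟩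

end Run7.h824.PL
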