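import Mathlib

/-!
# Project PRL (helper286), pieces HFC, HSQ: Hensel's lemma over complete rings (helper824)
-/

set_option autoImplicit false

open Polynomial

namespace Run7.h824.PL

section Lim

variable {R : Type} [CommRing R] (I : Ideal R)

/-- the polynomials with coefficients in the `n`-th power of the ideal -/
noncomputable def JJ (n : ℕ) : Ideal R[X] := (I ^ n).map (C : R →+* R[X])

theorem mem_JJ {n : ℕ} {f : R[X]} : f ∈ JJ I n ↔ ∀ j, f.coeff j ∈ I ^ n := Ideal.mem_map_C_iff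

theorem JJ_mul {m n : ℕ} {f g : R[X]} (hf : f ∈ JJ I m) (hg : g ∈ JJ I n) : f * g ∈ JJ I (m + n) := by
  unfold JJ at *
  rw [pow_add, Ideal.map_mul]
  exact Ideal.mul_mem_mul hf hg

theorem JJ_anti {m n : ℕ} (h : m ≤ n) {f : R[X]} (hf : f ∈ JJ I n) : f ∈ JJ I m :=
  Ideal.map_mono (Ideal.pow_le_pow_right h) hf

theorem JJ_iff {n : ℕ} {f : R[X]} : f ∈ JJ I n ↔ f.map (Ideal.Quotient.mk (I ^ n)) = 0 := by
  rw [mem_JJ, Polynomial.ext_iff]
  simp only [coeff_map, coeff_zero, Ideal.Quotient.eq_zero_iff_mem]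

theorem JJ_div {n : ℕ} {G E : R[X]} (hG : G.Monic) (hE : E ∈ JJ I n) : E /ₘ G ∈ JJ I n := by
  rw [JJ_iff] at *
  rw [Polynomial.map_divByMonic _ hG, hE, Polynomial.zero_divByMonic]

theorem JJ_mod {n : ℕ} {G E : R[X]} (hG : G.Monic) (hE : E ∈ JJ I n) : E %ₘ G ∈ JJ I n := by
  rw [JJ_iff] at *
  rw [Polynomial.map_modByMonic _ hG, hE, Polynomial.zero_modByMonic]

/-- limits of polynomials of bounded degree -/
theorem lim_poly [IsAdicComplete I R] (m : ℕ) (p : ℕ → R[X]) (hd : ∀ n, (p n).natDegree ≤ m)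
    (hp : ∀ n, p (n + 1) - p n ∈ JJ I n) : ∃ q : R[X], q.natDegree ≤ m ∧ ∀ n, q - p n ∈ JJ I n := by
  have hpm : ∀ n k, p (n + k) - p n ∈ JJ I n := by
    intro n k
    induction k with
    | zero => simp
    | succ k ih =>
      have e : p (n + (k + 1)) - p n = (p (n + k + 1) - p (n + k)) + (p (n + k) - p n) := by
        rw [← add_assoc]; ring
      rw [e]
      exact add_mem (JJ_anti I (by omega) (hp (n + k))) ih
  have h1 : ∀ j, ∃ L : R, ∀ n, L - (p n).coeff j ∈ I ^ n := by
    intro j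
    obtain ⟨L, hL⟩ := IsPrecomplete.prec (I := I) (M := R) inferInstance (f := fun n => (p n).coeff j) (by
      intro a b hab
      obtain ⟨k, rfl⟩ := Nat.exists_eq_add_of_le hab
      rw [SModEq.comm, SModEq.sub_mem]
      have := (mem_JJ I).1 (hpm a k) j
      rw [coeff_sub] at this
      simpa using this)
    refine ⟨L, fun n => ?_⟩
    have := (hL n).symm
    rw [SModEq.sub_mem] at this
    simpa using this
  choose L hL using h1
  refine ⟨∑ j ∈ Finset.range (m + 1), C (L j) * X ^ j, ?_, fun n => ?_⟩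
  · refine natDegree_sum_le_of_forall_le _ _ fun j hj => ?_
    rw [Finset.mem_range] at hj
    exact (natDegree_C_mul_X_pow_le _ _).trans (by omega)
  · rw [mem_JJ]
    intro j
    rw [coeff_sub, finsetSum_coeff]
    simp only [coeff_C_mul, coeff_X_pow, mul_ite, mul_one, mul_zero]
    by_cases hj : j < m + 1
    · rw [Finset.sum_ite_eq, if_pos (Finset.mem_range.2 hj)]
      exact hL j n
    · rw [Finset.sum_ite_eq, if_neg (by rwa [Finset.mem_range]), coeff_eq_zero_of_natDegree_lt (by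
        have := hd n
        omega)]
      simp

theorem haus [IsAdicComplete I R] {x : R} (hx : ∀ n, x ∈ I ^ n) : x = 0 := by
  refine IsHausdorff.haus (I := I) (M := R) inferInstance x fun n => ?_
  rw [SModEq.zero]
  simpa using hx n

theorem haus_poly [IsAdicComplete I R] {f : R[X]} (hf : ∀ n, f ∈ JJ I n) : f = 0 := by
  ext j
  rw [coeff_zero]
  exact haus I fun n => (mem_JJ I).1 (hf n) j

end Lim

/-- the choice of a sequence -/
theorem exists_seq' {α : Type} (P : ℕ → α → Prop) (Q : ℕ → α → α → Prop) (a : α) (h0 : P 0 a)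
    (hs : ∀ n x, P n x → ∃ y, P (n + 1) y ∧ Q n x y) :
    ∃ f : ℕ → α, (∀ n, P n (f n)) ∧ ∀ n, Q n (f n) (f (n + 1)) := by
  classical
  choose! g hg1 hg2 using hs
  let f : ℕ → α := fun n => Nat.rec a (fun n x => g n x) n
  have hf : ∀ n, P n (f n) := by
    intro n
    induction n with
    | zero => exact h0
    | succ n ih => exact hg1 n (f n) ih
  exact ⟨f, hf, fun n => hg2 n (f n) (hf n)⟩

/-- **HSQ** -/
theorem hsq (R : Type) [CommRing R] (I : Ideal R) [IsAdicComplete I R] (h2 : IsUnit (2 : R))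
    (F c s q : R[X]) (hF : F.Monic) (h : ∀ j, (c - s ^ 2 - F * q).coeff j ∈ I)
    (hab : ∃ a b : R[X], ∀ j, (a * c + b * F - 1).coeff j ∈ I) : ∃ s' q' : R[X], c = s' ^ 2 + F * q' := by
  obtain ⟨a, b, hab⟩ := hab
  obtain ⟨d, hd⟩ := h2.exists_right_inv
  have hE0 : c - s ^ 2 - F * q ∈ JJ I 1 := (mem_JJ I).2 (by simpa using h)
  have hab0 : a * c + b * F - 1 ∈ JJ I 1 := (mem_JJ I).2 (by simpa using hab)
  obtain ⟨f, hf1, hf2⟩ := exists_seq' (α := R[X])
    (fun n x => (∃ y, x - s - F * y ∈ JJ I 1) ∧ (∃ y, c - x ^ 2 - F * y ∈ JJ I (n + 1)) ∧ x.natDegree ≤ F.natDegree)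
    (fun n x y => y - x ∈ JJ I n) (s %ₘ F) (by
      refine ⟨⟨-(s /ₘ F), ?_⟩, ⟨q + (s /ₘ F) * (s + s %ₘ F), ?_⟩, ?_⟩
      · have e := modByMonic_add_div s F
        have e2 : s %ₘ F - s - F * -(s /ₘ F) = (s %ₘ F + F * (s /ₘ F)) - s := by ring
        rw [e2, e, sub_self]
        exact zero_mem _
      · have e := modByMonic_add_div s F
        have e2 : c - (s %ₘ F) ^ 2 - F * (q + (s /ₘ F) * (s + s %ₘ F)) =
            (c - s ^ 2 - F * q) + (s + s %ₘ F) * (s - (s %ₘ F + F * (s /ₘ F))) := by ring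
        rw [e2, e, sub_self, mul_zero, add_zero]
        exact hE0
      · exact natDegree_modByMonic_le s hF) (by
      rintro n x ⟨⟨y, hy⟩, ⟨z, hz⟩, hx⟩
      -- the correction
      obtain ⟨E, hE⟩ : ∃ E, E = c - x ^ 2 - F * z := ⟨_, rfl⟩
      rw [← hE] at hz
      obtain ⟨δ, hδ⟩ : ∃ δ, δ = (C d * (a * s) * E) %ₘ F := ⟨_, rfl⟩
      obtain ⟨δ', hδ'⟩ : ∃ δ', δ' = (C d * (a * s) * E) /ₘ F := ⟨_, rfl⟩
      have hdiv : δ + F * δ' = C d * (a * s) * E := by
        rw [hδ, hδ']
        exact modByMonic_add_div _ F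
      have hδJ : δ ∈ JJ I (n + 1) := by
        rw [hδ]
        exact JJ_mod I hF (Ideal.mul_mem_left _ _ hz)
      refine ⟨x + δ, ⟨⟨y, ?_⟩, ?_, ?_⟩, ?_⟩
      · have e : x + δ - s - F * y = (x - s - F * y) + δ := by ring
        rw [e]
        exact add_mem hy (JJ_anti I (by omega) hδJ)
      · -- `2 d = 1`
        have hCd : (2 : R[X]) * C d = 1 := by
          have : (2 : R[X]) = C 2 := (map_ofNat C 2).symm
          rw [this, ← C_mul, hd, C_1]
        -- `1 - x a s ∈ (F) + J`
        obtain ⟨v, hv⟩ : ∃ v, v = 1 - x * (a * s) - F * (b + a * q - y * (a * s)) := ⟨_, rfl⟩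
        have hvJ : v ∈ JJ I 1 := by
          have e : v = -(a * c + b * F - 1) + a * (c - s ^ 2 - F * q) - (a * s) * (x - s - F * y) := by
            rw [hv]; ring
          rw [e]
          exact sub_mem (add_mem (neg_mem hab0) (Ideal.mul_mem_left _ _ hE0)) (Ideal.mul_mem_left _ _ hy)
        refine ⟨z + 2 * x * δ' + E * (b + a * q - y * (a * s)), ?_⟩
        have e : c - (x + δ) ^ 2 - F * (z + 2 * x * δ' + E * (b + a * q - y * (a * s))) = E * v - δ ^ 2 := by
          have h3 : 2 * x * (δ + F * δ') = x * (a * s) * E := by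
            rw [hdiv]
            calc 2 * x * (C d * (a * s) * E) = (2 * C d) * (x * (a * s) * E) := by ring
              _ = _ := by rw [hCd, one_mul]
          rw [hv]
          linear_combination (-1 : R[X]) * h3 - hE
        rw [e]
        refine sub_mem ?_ ?_
        · exact JJ_mul I hz hvJ
        · rw [pow_two]
          exact JJ_anti I (by omega) (JJ_mul I hδJ hδJ)
      · refine (natDegree_add_le _ _).trans (max_le hx ?_)
        rw [hδ]
        exact natDegree_modByMonic_le _ hF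
      · have e : x + δ - x = δ := by ring
        rw [e]
        exact JJ_anti I (by omega) hδJ)
  obtain ⟨s', -, hs'⟩ := lim_poly I F.natDegree f (fun n => (hf1 n).2.2) hf2
  refine ⟨s', (c - s' ^ 2) /ₘ F, ?_⟩
  have h0 : (c - s' ^ 2) %ₘ F = 0 := by
    apply haus_poly I
    intro n
    obtain ⟨-, ⟨y, hy⟩, -⟩ := hf1 n
    have e : c - s' ^ 2 = (c - f n ^ 2 - F * y) - (s' - f n) * (s' + f n) + F * y := by ring
    rw [e, add_modByMonic, (modByMonic_eq_zero_iff_dvd hF).2 (dvd_mul_right F y), add_zero]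
    refine JJ_mod I hF (sub_mem (JJ_anti I (by omega) hy) (Ideal.mul_mem_right _ _ (hs' n)))
  have h1 := modByMonic_add_div (c - s' ^ 2) F
  rw [h0, zero_add] at h1
  rw [h1]
  ring

/-- **HFC** -/
theorem hfc (R : Type) [CommRing R] (I : Ideal R) [IsAdicComplete I R] (F a b : R[X]) (hF : F.Monic)
    (ha : a.Monic) (hb : b.Monic) (hdeg : F.natDegree = a.natDegree + b.natDegree)
    (hFab : ∀ j, (F - a * b).coeff j ∈ I) (hxy : ∃ x y : R[X], ∀ j, (x * a + y * b - 1).coeff j ∈ I) :
    ∃ a' b' : R[X], a'.Monic ∧ b'.Monic ∧ a'.natDegree = a.natDegree ∧ F = a' * b' ∧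
      (∀ j, (a' - a).coeff j ∈ I) ∧ ∀ j, (b' - b).coeff j ∈ I := by
  rcases subsingleton_or_nontrivial R with hR | hR
  · have : Subsingleton R[X] := inferInstance
    exact ⟨a, b, ha, hb, rfl, Subsingleton.elim _ _, by simp, by simp⟩
  obtain ⟨x, y, hxy⟩ := hxy
  have hE0 : F - a * b ∈ JJ I 1 := (mem_JJ I).2 (by simpa using hFab)
  have hxy0 : x * a + y * b - 1 ∈ JJ I 1 := (mem_JJ I).2 (by simpa using hxy)
  obtain ⟨f, hf1, hf2⟩ := exists_seq' (α := R[X])
    (fun n G => G.Monic ∧ G.natDegree = a.natDegree ∧ G - a ∈ JJ I 1 ∧ ∃ H, H - b ∈ JJ I 1 ∧ F - G * H ∈ JJ I (n + 1))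
    (fun n G G' => G' - G ∈ JJ I n) a ⟨ha, rfl, by simp, b, by simp, hE0⟩ (by
      rintro n G ⟨hG, hGd, hGa, H, hHb, hE⟩
      obtain ⟨E, hEd⟩ : ∃ E, E = F - G * H := ⟨_, rfl⟩
      rw [← hEd] at hE
      obtain ⟨r, hr⟩ : ∃ r, r = (E * y) %ₘ G := ⟨_, rfl⟩
      obtain ⟨q, hq⟩ : ∃ q, q = (E * y) /ₘ G := ⟨_, rfl⟩
      have hdiv : r + G * q = E * y := by
        rw [hr, hq]
        exact modByMonic_add_div _ G
      have hrJ : r ∈ JJ I (n + 1) := by
        rw [hr]
        exact JJ_mod I hG (Ideal.mul_mem_right _ _ hE)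
      have hqJ : q ∈ JJ I (n + 1) := by
        rw [hq]
        exact JJ_div I hG (Ideal.mul_mem_right _ _ hE)
      have hrlt : r.degree < G.degree := by
        rw [hr]
        exact degree_modByMonic_lt _ hG
      have hη : E * x + q * H ∈ JJ I (n + 1) := add_mem (Ideal.mul_mem_right _ _ hE) (Ideal.mul_mem_right _ _ hqJ)
      refine ⟨G + r, ⟨hG.add_of_left hrlt, ?_, ?_, H + (E * x + q * H), ?_, ?_⟩, ?_⟩
      · rw [natDegree_add_eq_left_of_degree_lt hrlt, hGd]
      · have e : G + r - a = (G - a) + r := by ring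
        rw [e]
        exact add_mem hGa (JJ_anti I (by omega) hrJ)
      · have e : H + (E * x + q * H) - b = (H - b) + (E * x + q * H) := by ring
        rw [e]
        exact add_mem hHb (JJ_anti I (by omega) hη)
      · have h1 : x * G + y * H - 1 ∈ JJ I 1 := by
          have e : x * G + y * H - 1 = (x * a + y * b - 1) + (x * (G - a) + y * (H - b)) := by ring
          rw [e]
          exact add_mem hxy0 (add_mem (Ideal.mul_mem_left _ _ hGa) (Ideal.mul_mem_left _ _ hHb))
        have e : F - (G + r) * (H + (E * x + q * H)) = -(E * (x * G + y * H - 1)) - r * (E * x + q * H) := by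
          linear_combination (-1 : R[X]) * hEd - H * hdiv
        rw [e]
        refine sub_mem (neg_mem (JJ_mul I hE h1)) ?_
        exact JJ_anti I (by omega) (JJ_mul I hrJ hη)
      · have e : G + r - G = r := by ring
        rw [e]
        exact JJ_anti I (by omega) hrJ)
  obtain ⟨G, hGd, hG⟩ := lim_poly I a.natDegree f (fun n => (hf1 n).2.1.le) hf2
  have hGc : G.coeff a.natDegree = 1 := by
    have h1 : G.coeff a.natDegree - 1 = 0 := by
      apply haus I
      intro n
      have h2 := (mem_JJ I).1 (hG n) a.natDegree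
      rw [coeff_sub] at h2
      have h3 : (f n).coeff a.natDegree = 1 := by
        have h4 := (hf1 n).1
        have h5 := (hf1 n).2.1
        rw [← h5]
        exact h4
      rwa [h3] at h2
    exact sub_eq_zero.1 h1
  have hGm : G.Monic := monic_of_natDegree_le_of_coeff_eq_one _ hGd hGc
  have hGdeg : G.natDegree = a.natDegree := by
    refine le_antisymm hGd (le_natDegree_of_ne_zero ?_)
    rw [hGc]
    exact one_ne_zero
  have hdvd : F %ₘ G = 0 := by
    apply haus_poly I
    intro n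
    obtain ⟨-, -, -, H, -, hH⟩ := hf1 n
    have e : F = (F - f n * H) - (G - f n) * H + G * H := by ring
    rw [e, add_modByMonic, (modByMonic_eq_zero_iff_dvd hGm).2 (dvd_mul_right G H), add_zero]
    refine JJ_mod I hGm (sub_mem (JJ_anti I (by omega) hH) (Ideal.mul_mem_right _ _ (hG n)))
  have hFG : F = G * (F /ₘ G) := by
    have h1 := modByMonic_add_div F G
    rw [hdvd, zero_add] at h1
    exact h1.symm
  have hGa : G - a ∈ JJ I 1 := by
    have e : G - a = (G - f 1) + (f 1 - a) := by ring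
    rw [e]
    exact add_mem (hG 1) (hf1 1).2.2.1
  refine ⟨G, F /ₘ G, hGm, ?_, hGdeg, hFG, ?_, ?_⟩
  · refine Monic.of_mul_monic_left hGm ?_
    rw [← hFG]
    exact hF
  · simpa using (mem_JJ I).1 hGa
  · have h1 : F /ₘ G - b ∈ JJ I 1 := by
      have e : F /ₘ G - b = (F - a * b - (G - a) * b) /ₘ G := by
        have e1 : F - a * b - (G - a) * b = G * (F /ₘ G - b) := by
          linear_combination hFG
        rw [e1, mul_divByMonic_cancel_left _ hGm]
      rw [e]
      exact JJ_div I hGm (sub_mem hE0 (Ideal.mul_mem_right _ _ hGa))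
    simpa using (mem_JJ I).1 h1

end Run7.h824.PL
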