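import Pool.Agent.Run7.h286.PL.StmS
import Pool.Agent.Run7.h824.PL.Hens

/-!
# Project PRL (helper286), pieces HSQ, HFC (helper824)
-/

set_option autoImplicit false

namespace Run7.h824.PL

theorem T_HSQ : Run7.h286.PL.P_HSQ := fun R _ I _ h2 F c s q hF h hab => hsq R I h2 F c s q hF h hab

theorem T_HFC : Run7.h286.PL.P_HFC := fun R _ I _ F a b hF ha hb hdeg h hxy => hfc R I F a b hF ha hb hdeg h hxy

end Run7.h824.PL
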